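import Pool.Agent.Helper24.VL.ChainW
import Pool.Agent.Q85.CL.FinD
import Pool.Agent.Q95.CL.Far
import Pool.Agent.Q285.CL.WSc

/-!
# A singularity needs closed chains of field lines, for every field comparable with the vorticity

`V = Fin 3 → ℝ`, `len` is the Euclidean length, `‖·‖` the maximum norm (so `‖y - a‖ ≤ R` is a cube
with centre `a`), `vort v` is the curl of `v` and `om v = len (vort v)`.

* An arc (`Arc z D p q l`) from `p` to `q` is an integral curve, with length `l > 0`, of the unit
  field `z / |z|` inside of the set `D`.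
* A closed chain with relative gap `ε` (`Chained z D ε`) consists of finitely many arcs from `p i`
  to `q i` inside of `D`, in a cyclic order, such that the sum of the lengths of the gaps from
  `q i` to `p (i + 1)` is less than `ε` times the sum of the lengths of the arcs.
* `Fld c C R a m f W`: the field `W` is continuous and weakly free of divergence in the cube, it is
  continuously differentiable where `m < f`, and it is comparable with `f` in size:
  `|W| ≤ C f + m` in the cube and `c f ≤ |W|` where `m < f`.

Let `u` be a smooth solution of the Navier-Stokes equations with viscosity `ν > 0` on the time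
interval `(0, T)` in an open set `Ω` with finite energy, finite dissipation and integrable pressure
(no boundary conditions), and suppose that `u` is unbounded near the point `(T, a)`, `a ∈ Ω`. Let
`ε`, `R > 0` be as small and `T₀ < T` as close to `T` as we please, let `c`, `C > 0`, and let
`m(t, y) ≥ 0` be any threshold, continuous in `y`, in the Kato class uniformly for `t ∈ (T₀, T)` (a
large constant, or `C / (|y - a| + δ(t)) ^ α` with any `α < 2` and any `δ(t) > 0`, for instance).
Then there is a time `t ∈ (T₀, T)` such that EVERY field `W` without divergence which is comparable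
with the vorticity `ω(t)` in size (its direction is arbitrary) has a closed chain of field lines
with relative gap `ε` in the part `|ω(t, y)| > m(t, y)` of the cube with centre `a` and side `2 R`.

Solutions in the whole space and periodic solutions which are unbounded near the time `T` have such
a point `a`.

The fields `W = θ ω(t)` are of this kind (with `c = C = 1`, theorem `orient` below) for ANY
orientation `θ` of the vorticity (`Orient`): a choice of a sign `θ y = ± 1` which is continuous on
the set of the points of the cube where the vorticity does not vanish. Their chains are chains of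
vortex lines, possibly reversed in some of the components of the set `ω ≠ 0`.
-/

set_option autoImplicit false

open MeasureTheory Set Metric

namespace Pool.Agent.Results.MP_6bf1e5_an.ClosedVortexChains

open H459R3.NS Pool.Agent.W268.NS Pool.Agent.Q67.VD Pool.Agent.Q85.CL Pool.Agent.Q85.VL

/-- The field `W` is continuous and weakly free of divergence in the cube with centre `a` and side
`2 R`, continuously differentiable where `m < f`, and comparable with `f` in size. -/
structure Fld (c C R : ℝ) (a : V) (m f : V → ℝ) (W : V → V) : Prop where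
  cont : ContinuousOn W (closedBall a R)
  div : ∀ F : V → ℝ, ContDiff ℝ 1 F → tsupport F ⊆ closedBall a R →
    ∫ y in closedBall a R, fderiv ℝ F y (W y) = 0
  c1 : ContDiffOn ℝ 1 W {y | ‖y - a‖ < R ∧ m y < f y}
  up : ∀ y, ‖y - a‖ ≤ R → len (W y) ≤ C * f y + m y
  lo : ∀ y, ‖y - a‖ ≤ R → m y < f y → c * f y ≤ len (W y)

/-- Closed chains of field lines near the point `a` and near the time `T`, above all the thresholds
in the uniform Kato class. -/
def VortexChains (T : ℝ) (u : ℝ → V → V) (a : V) : Prop :=
  ∀ (T₀ ε R c C : ℝ) (m : ℝ → V → ℝ), 0 ≤ T₀ → T₀ < T → 0 < ε → 0 < R → 0 < c →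
    (∀ t ∈ Ioo T₀ T, Continuous (m t)) → (∀ t ∈ Ioo T₀ T, ∀ y, 0 ≤ m t y) → Kato T₀ T a R m →
      ∃ t ∈ Ioo T₀ T, ∀ W : V → V, Fld c C R a (m t) (om (u t)) W →
        Chained W {y | ‖y - a‖ ≤ R ∧ m t y < om (u t) y} ε

/-- The projection to the cube. -/
noncomputable def toCube (a : V) (R : ℝ) (y : V) : V := fun i => max (a i - R) (min (a i + R) (y i))

lemma toCube_cont (a : V) (R : ℝ) : Continuous (toCube a R) :=
  continuous_pi fun i => continuous_const.max (continuous_const.min (continuous_apply i))

lemma toCube_mem {a : V} {R : ℝ} (hR : 0 ≤ R) (y : V) : toCube a R y ∈ closedBall a R := by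
  rw [mem_closedBall, dist_eq_norm, pi_norm_le_iff_of_nonneg hR]
  intro i
  rw [Pi.sub_apply, Real.norm_eq_abs, abs_le]
  have h1 : a i - R ≤ toCube a R y i := le_max_left _ _
  have h2 : toCube a R y i ≤ a i + R := max_le (by linarith) (min_le_left _ _)
  constructor <;> linarith

lemma toCube_eq {a y : V} {R : ℝ} (hy : ‖y - a‖ ≤ R) : toCube a R y = y := by
  funext i
  have h1 : |y i - a i| ≤ R := by
    have := norm_le_pi_norm (y - a) i
    rw [Pi.sub_apply, Real.norm_eq_abs] at this
    linarith
  rw [abs_le] at h1
  show max (a i - R) (min (a i + R) (y i)) = y i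
  rw [min_eq_right (by linarith), max_eq_right (by linarith)]

/-- For any orientation `θ` of the vorticity the field `θ ω` is comparable with the vorticity: the
chains of `VortexChains` contain the chains of vortex lines, with any signs. -/
theorem orient {v : V → V} {θ : V → ℝ} {a : V} {R : ℝ} {m : V → ℝ} (hv : SM v) (hR : 0 < R)
    (hm0 : ∀ y, 0 ≤ m y) (hmc : Continuous m) (hθ : Orient θ a R (vort v)) :
    Fld 1 1 R a m (om v) (fun y => θ y • vort v y) := by
  obtain ⟨W, hW, hWe⟩ := t_Wd v θ a R hv hR hθ
  have hl : ∀ y, len (θ y • vort v y) = om v y := by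
    intro y
    rcases hθ.1 y with h | h
    · rw [h, one_smul]; rfl
    · rw [h, ln_smul, abs_neg, abs_one, one_mul]; rfl
  refine ⟨?_, fun F hF hts => ?_, ?_, fun y _ => ?_, fun y _ _ => ?_⟩
  · refine hW.cont.continuousOn.congr fun y hy => ?_
    rw [mem_closedBall, dist_eq_norm] at hy
    exact (hWe y hy).symm
  · rw [← hW.div F hF hts]
    refine setIntegral_congr_fun measurableSet_closedBall fun y hy => ?_
    rw [mem_closedBall, dist_eq_norm] at hy
    show fderiv ℝ F y _ = fderiv ℝ F y _
    rw [hWe y hy]
  · rintro y ⟨hy, hmy⟩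
    have ho : IsOpen {y | ‖y - a‖ < R ∧ m y < om v y} :=
      (isOpen_lt (continuous_id.sub continuous_const).norm continuous_const).inter
        (isOpen_lt hmc (om_contL hv))
    have hc : ContinuousAt θ y := by
      refine (hθ.2.mono ?_).continuousAt (ho.mem_nhds ⟨hy, hmy⟩)
      rintro z ⟨hz, hmz⟩
      refine ⟨hz.le, fun h0 => ?_⟩
      have h1 : om v z = 0 := by
        show len (vort v z) = 0
        rw [h0]
        simp [len]
      linarith [hm0 z]
    have he : (fun z => θ z • vort v z) =ᶠ[nhds y] fun z => θ y • vort v z := by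
      filter_upwards [hc (ball_mem_nhds (θ y) one_pos)] with z hz
      have hz' : |θ z - θ y| < 1 := by
        have := mem_ball.1 (mem_preimage.1 hz)
        rwa [Real.dist_eq] at this
      have h2 : θ z = θ y := by
        rcases hθ.1 z with h | h <;> rcases hθ.1 y with h' | h' <;> rw [h, h'] at hz' ⊢ <;>
          norm_num at hz'
      rw [h2]
    exact ((((Mol.vort_c1 hv).const_smul (θ y)).contDiffAt).congr_of_eventuallyEq he).contDiffWithinAt
  · rw [hl, one_mul]
    linarith [hm0 y]
  · rw [hl, one_mul]

theorem result {ν T : ℝ} {u : ℝ → V → V} {p : ℝ → V → ℝ} (hν : 0 < ν) :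
    (∀ (E : ℝ) (Ω : Set V), DSl ν T E Ω u p → ∀ a ∈ Ω, Sing T u a → VortexChains T u a) ∧
    (∀ E : ℝ, WSl ν T E u p → Blow T u → ∃ a : V, Sing T u a ∧ VortexChains T u a) ∧
    (IsSol ν T u p → Blow T u → ∃ a : V, Sing T u a ∧ VortexChains T u a) := by
  have loc : ∀ (p : ℝ → V → ℝ) (E : ℝ) (Ω : Set V), DSl ν T E Ω u p → ∀ a ∈ Ω, Sing T u a →
      VortexChains T u a := by
    intro p E Ω h a ha hs T₀ ε R c C m hT0 hT₀ hε hR hc hmc hm0 hK
    obtain ⟨t, ht, h1⟩ := chainW (C₀ := C) hν h ha hs hT0 hT₀ hε hR hc hmc hm0 hK
    refine ⟨t, ht, fun W hW => ?_⟩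
    refine (h1 (fun y => W (toCube a R y)) ⟨?_, fun F hF hts => ?_, ?_, fun y hy => ?_,
      fun y hy hy2 => ?_⟩).congr one_pos fun y hy => ?_
    · exact hW.cont.comp_continuous (toCube_cont a R) (toCube_mem hR.le)
    · rw [← hW.div F hF hts]
      refine setIntegral_congr_fun measurableSet_closedBall fun y hy => ?_
      rw [mem_closedBall, dist_eq_norm] at hy
      show fderiv ℝ F y (W (toCube a R y)) = fderiv ℝ F y _
      rw [toCube_eq hy]
    · refine hW.c1.congr fun y hy => ?_
      rw [toCube_eq hy.1.le]
    · rw [toCube_eq hy]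
      exact hW.up y hy
    · rw [toCube_eq hy]
      exact hW.lo y hy hy2
    · rw [toCube_eq hy.1, one_smul]
  refine ⟨loc p, fun E h hB => ?_, fun h hB => ?_⟩
  · obtain ⟨a, ha⟩ := sing_whole Pool.Agent.Q95.CL.far Pool.Agent.Q285.CL.wsc hν h hB
    exact ⟨a, ha, loc p E (ball a (1 / 2)) (whole_D h a) a (mem_ball_self (by norm_num)) ha⟩
  · obtain ⟨a, ha⟩ := sing_per h hB
    obtain ⟨p', hp⟩ := perD hν ha.pos h a
    exact ⟨a, ha, loc p' _ (ball a (1 / 2)) hp a (mem_ball_self (by norm_num)) ha⟩

end Pool.Agent.Results.MP_6bf1e5_an.ClosedVortexChains
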