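import Pool.Agent.Helper30K1.Crt3

/-!
The size of the singular set of a suitable weak periodic solution of the Navier-Stokes equations
one component of whose velocity is in a Serrin class.

`V = Fin 3 → ℝ` with the maximum norm, `cube = [0,1]³`; `Turb ν T E D G u p` is the class of the
suitable weak `1`-periodic solutions on `(0, T)` with viscosity `ν`, smooth at the times of the open
set `G` of full measure; `SingPt G u t x` says that `u` is unbounded near `(t, x)`.

The regularity criterion behind the theorem is `Pool.Agent.Helper30K1.crit`: at every singular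
point `(t₀, x₀)` the sum over the dyadic radii `r` of the scale invariant norms
`r ^ (-3 / q) ‖u_j‖` in `L²(t₀ - r² / ν, t₀; L^q)` of the slabs `|x_j - x₀_j| < r` is infinite.
-/

set_option autoImplicit false

open MeasureTheory Set Metric
open scoped ENNReal

namespace Pool.Agent.Results.MP_6bf1e5_an.OneComponent

open H459R3.NS Pool.Agent.Y8 Pool.Agent.Helper30K1

/-- The `j`-th component is in `L^m` of time with values in `L^q` of space. -/
def Component (m q : ℝ) (G : Set ℝ) (u : ℝ → V → V) (j : Fin 3) : Prop :=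
  ∫⁻ t in G, (∫⁻ x in cube, ‖u t x j‖ₑ ^ q) ^ (m / q) ≠ ⊤

/-- The parabolic cylinder `{|t - z₁| < r², ‖x - z₂‖ < r}` around `z`. -/
def Cylinder {F : Type*} [NormedAddCommGroup F] (z : ℝ × F) (r : ℝ) : Set (ℝ × F) :=
  {w | |w.1 - z.1| < r ^ 2 ∧ ‖w.2 - z.2‖ < r}

/-- The set `S` has parabolic Hausdorff measure zero for the gauge `g`: for every `ε > 0` it is
covered by countably many parabolic cylinders of radii `rᵢ ≤ ε` with `∑ g(rᵢ) ≤ ε`. -/
def Null {F : Type*} [NormedAddCommGroup F] (g : ℝ → ℝ) (S : Set (ℝ × F)) : Prop :=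
  ∀ ε > 0, ∃ (ι : Type) (_ : Countable ι) (z : ι → ℝ × F) (r : ι → ℝ),
    (∀ i, 0 < r i ∧ r i ≤ ε) ∧ S ⊆ ⋃ i, Cylinder (z i) (r i) ∧
      ∑' i, ENNReal.ofReal (g (r i)) ≤ ENNReal.ofReal ε

/-- Let `(u, p)` be a suitable weak periodic solution one component `u_j` of which is in
`L^m(0, T; L^q)`, `m ≥ 2`, `3 < q < ∞`, and let `σ = 2 / m + 3 / q - 1`.
(1) If `σ = 0`, the singular set has parabolic Hausdorff measure zero for all the gauges
`exp (-A (log (1 / r)) ^ (1 - 1 / m))`, `A > 0`, and therefore Hausdorff dimension zero.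
(2) The set of the singular times has Hausdorff dimension at most `σ m / 2` (zero if `σ < 0`).
(3) The set of the pairs `(t, c)` for which there is a singular point at the time `t` in the plane
`x_j = c` has parabolic Hausdorff measure zero in all the dimensions larger than `σ max(q, m)`. -/
theorem result (ν T E D : ℝ) (G : Set ℝ) (u : ℝ → V → V) (p : ℝ → V → ℝ) (hν : 0 < ν)
    (hu : Turb ν T E D G u p) (j : Fin 3) (m q : ℝ) (hm : 2 ≤ m) (hq : 3 < q)
    (hY : Component m q G u j) :
    (2 / m + 3 / q = 1 →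
      (∀ A > 0, Null (fun r => Real.exp (-(A * Real.log (1 / r) ^ (1 - 1 / m))))
        {w : ℝ × V | w.1 ∈ Ioo 0 T ∧ SingPt G u w.1 w.2}) ∧
      dimH {w : ℝ × V | w.1 ∈ Ioo 0 T ∧ SingPt G u w.1 w.2} = 0) ∧
    dimH {t ∈ Ioo 0 T | ∃ x : V, SingPt G u t x} ≤ ENNReal.ofReal ((2 / m + 3 / q - 1) * m / 2) ∧
    ∀ δ > 0, (2 / m + 3 / q - 1) * max q m < δ →
      Null (fun r => r ^ δ)
        {w : ℝ × ℝ | w.1 ∈ Ioo 0 T ∧ ∃ x : V, x j = w.2 ∧ SingPt G u w.1 x} :=
  ⟨fun hqm => ⟨fun A hA => gauge hν hu hq hm hqm j hY hA, dim_crit hν hu hq hm hqm j hY⟩,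
    times hν hu hq hm j hY, fun δ hδ hδ2 => planes hν hu hq hm j hY hδ hδ2⟩

end Pool.Agent.Results.MP_6bf1e5_an.OneComponent
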