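import Pool.Agent.Helper19.SW.Ana

/-!
# Global regularity is stable under the addition of large and fast shear flows

Let `V` be a real-analytic divergence-free `ℤ³`-periodic field from which the Navier-Stokes equations have a
global smooth periodic solution `v`.  Then there is `c₀ > 0` such that for every nonzero `η ∈ ℤ³`, every finite
set `S` of nonzero integers and all `A(m) ∈ ℂ³`, `m ∈ S`, orthogonal to `η` with
`∑_m |A(m)| / (m² |η|²) ≤ c₀`, the initial velocity `V(x) + Re ∑_m A(m) exp(2πi m η·x)` also has a global smooth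
periodic solution `u`; this initial velocity is again real-analytic, and `∫_δ^∞ sup_x |u - v|² dt ≤ ε`.

The constant does not depend on the frequency vector `η`, on the number of modes or on their amplitudes: only
the norm with *two* negative derivatives of the shear flow has to be small, which is one derivative below the
critical scaling.  The added shear flow may have amplitude `c₀ |η|²` and so be arbitrarily large in every
critical norm.

Method: on the Fourier side the solution is sought in the form `v + (shear heat flow) + T U + (small)`, where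
`T` is the commutator with the displacement of the shear flow (Lie derivative), in weighted `ℓ¹` spaces with a
radius of analyticity that decreases only in the directions orthogonal to `η` at a rate given by the amplitude of
the decaying shear flow.
-/

open MeasureTheory Set
open scoped ENNReal ContDiff

namespace Pool.Agent.Results.MP_6bf1e5_an.ShearWaves

open Pool.Agent.H356R3.NS (R3 AdmissiblePeriodic)
open Pool.Agent.H356R3.NS.SW (shear)

lemma shear_analytic (η : Fin 3 → ℤ) (S : Finset ℤ) (A : ℤ → Fin 3 → ℂ) :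
    AnalyticOnNhd ℝ (shear η S A) univ := by
  intro x _
  rw [analyticAt_pi_iff]
  intro i
  unfold shear
  have h1 : AnalyticAt ℝ (fun x : R3 => ∑ m ∈ S, A m i *
      Complex.exp (2 * Real.pi * Complex.I * (m * ∑ j, (η j : ℂ) * (x j : ℂ)))) x := by
    have h2 : ∀ j, AnalyticAt ℝ (fun x : R3 => ((x j : ℝ) : ℂ)) x := fun j =>
      (Complex.ofRealCLM.analyticAt _).comp ((ContinuousLinearMap.proj j : R3 →L[ℝ] ℝ).analyticAt x)
    refine Finset.analyticAt_fun_sum _ fun m _ => analyticAt_const.mul ?_
    have h3 : AnalyticAt ℝ (fun x : R3 => 2 * Real.pi * Complex.I * (m * ∑ j, (η j : ℂ) * ((x j : ℝ) : ℂ))) x :=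
      analyticAt_const.mul (analyticAt_const.mul
        (Finset.analyticAt_fun_sum _ fun j _ => analyticAt_const.mul (h2 j)))
    exact (analyticAt_cexp.restrictScalars (𝕜 := ℝ)).comp h3
  exact (Complex.reCLM.analyticAt _).comp h1

/-- Adding to a real-analytic initial velocity with a global smooth periodic Navier-Stokes solution any shear flow
that is small in the norm `∑_k |k|^{-2} |a(k)|` again gives an initial velocity with a global smooth solution. -/
theorem result {ν : ℝ} (hν : 0 < ν) {V : R3 → R3} {v : ℝ → R3 → R3} {q : ℝ → R3 → ℝ}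
    (hv : AdmissiblePeriodic ν V v q) (hV : AnalyticOnNhd ℝ V univ) {δ ε : ℝ} (hδ : 0 < δ) (hε : 0 < ε) :
    ∃ c₀ : ℝ, 0 < c₀ ∧ ∀ (η : Fin 3 → ℤ) (S : Finset ℤ) (A : ℤ → Fin 3 → ℂ), η ≠ 0 → (0 : ℤ) ∉ S →
      (∀ m ∈ S, ∑ j, (η j : ℂ) * A m j = 0) →
      ∑ m ∈ S, ‖A m‖ / ((m : ℝ) ^ 2 * ∑ j, (η j : ℝ) ^ 2) ≤ c₀ →
      ∃ (u : ℝ → R3 → R3) (p : ℝ → R3 → ℝ),
        AdmissiblePeriodic ν (fun x => V x + shear η S A x) u p ∧
        AnalyticOnNhd ℝ (fun x => V x + shear η S A x) univ ∧
        ∫⁻ t in Ioi δ, (⨆ x, ‖u t x - v t x‖ₑ) ^ 2 ≤ ENNReal.ofReal ε := by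
  have hsm : ContDiff ℝ ∞ V := hV.contDiff
  have hper : ∀ x j, V (x + Pi.single j 1) = V x := by
    intro x j
    have := hv.periodic_u 0 le_rfl x j
    rwa [hv.initial] at this
  obtain ⟨α, hα, hs⟩ := Pool.Agent.H356R3.NS.SW.fc_analytic hsm hper hV
  obtain ⟨c₀, hc₀, h⟩ := Pool.Agent.H356R3.NS.SW.main_phys hν hδ hε hv hα hs
  refine ⟨c₀, hc₀, fun η S A hη h0 hA hle => ?_⟩
  obtain ⟨u, p, h1, h2⟩ := h η S A hη h0 hA hle
  exact ⟨u, p, h1, hV.add (shear_analytic η S A), h2⟩

end Pool.Agent.Results.MP_6bf1e5_an.ShearWaves
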